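import Mathlib

set_option autoImplicit false

namespace Pool.Agent.Results.MP_2a0e18_al.Infinite

open scoped TensorProduct

/-- Two-sided group-like projections. -/
def IsGLP (k : Type) {A : Type} [Field k] [Ring A] [HopfAlgebra k A] (P : A) : Prop :=
  P ≠ 0 ∧ P * P = P ∧
  Coalgebra.comul (R := k) P * (1 ⊗ₜ[k] P) = P ⊗ₜ[k] P ∧
  (1 ⊗ₜ[k] P) * Coalgebra.comul (R := k) P = P ⊗ₜ[k] P ∧
  Coalgebra.comul (R := k) P * (P ⊗ₜ[k] 1) = P ⊗ₜ[k] P ∧
  (P ⊗ₜ[k] 1) * Coalgebra.comul (R := k) P = P ⊗ₜ[k] P

abbrev K : Type := RatFunc (ZMod 2)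

abbrev F : Type := FreeAlgebra K Bool

noncomputable abbrev X (b : Bool) : F := FreeAlgebra.ι K b

inductive rel : F → F → Prop
  | hh : rel (X true * X true) (X true)
  | ee : rel (X false * X false) 0
  | he : rel (X true * X false + X false * X true) (X false)

def A : Type := RingQuot rel

noncomputable instance : Ring A := inferInstanceAs (Ring (RingQuot rel))
noncomputable instance : Algebra K A := inferInstanceAs (Algebra K (RingQuot rel))

noncomputable def mk : F →ₐ[K] A := RingQuot.mkAlgHom K rel

noncomputable def x (b : Bool) : A := mk (X b)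

theorem hh : x true * x true = x true := by
  have : mk _ = mk _ := RingQuot.mkAlgHom_rel K rel.hh
  simpa [x] using this

theorem ee : x false * x false = 0 := by
  have : mk _ = mk _ := RingQuot.mkAlgHom_rel K rel.ee
  simpa [x] using this

theorem he : x true * x false + x false * x true = x false := by
  have : mk _ = mk _ := RingQuot.mkAlgHom_rel K rel.he
  simpa [x] using this

theorem two {M : Type} [AddCommGroup M] [Module K M] (m : M) : m + m = 0 := by
  rw [← two_smul K m, show (2 : K) = 0 from CharTwo.two_eq_zero, zero_smul]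

noncomputable def lift {B : Type} [Ring B] [Algebra K B] (f : Bool → B)
    (h1 : f true * f true = f true) (h2 : f false * f false = 0)
    (h3 : f true * f false + f false * f true = f false) : A →ₐ[K] B :=
  RingQuot.liftAlgHom K ⟨FreeAlgebra.lift K f, by rintro _ _ (_ | _ | _) <;> simp [*]⟩

theorem lift_x {B : Type} [Ring B] [Algebra K B] (f : Bool → B) (h1 h2 h3) (b : Bool) :
    lift f h1 h2 h3 (x b) = f b :=
  (RingQuot.liftAlgHom_mkAlgHom_apply K _ _ _).trans (FreeAlgebra.lift_ι_apply _ _)

theorem ext {B : Type} [Semiring B] [Algebra K B] (f g : A →ₐ[K] B) (h : ∀ b, f (x b) = g (x b)) :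
    f = g :=
  RingQuot.ringQuot_ext' K f g (FreeAlgebra.hom_ext (funext h))

theorem sq (a : A) : (a ⊗ₜ[K] 1 + 1 ⊗ₜ[K] a : A ⊗[K] A) * (a ⊗ₜ[K] 1 + 1 ⊗ₜ[K] a) =
    (a * a) ⊗ₜ[K] 1 + 1 ⊗ₜ[K] (a * a) := by
  simp only [mul_add, add_mul, Algebra.TensorProduct.tmul_mul_tmul, mul_one, one_mul]
  rw [add_assoc, ← add_assoc (a ⊗ₜ[K] a), two, zero_add]

theorem ac (a b : A) : (a ⊗ₜ[K] 1 + 1 ⊗ₜ[K] a : A ⊗[K] A) * (b ⊗ₜ[K] 1 + 1 ⊗ₜ[K] b) +
    (b ⊗ₜ[K] 1 + 1 ⊗ₜ[K] b) * (a ⊗ₜ[K] 1 + 1 ⊗ₜ[K] a) =
    (a * b + b * a) ⊗ₜ[K] 1 + 1 ⊗ₜ[K] (a * b + b * a) := by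
  simp only [mul_add, add_mul, Algebra.TensorProduct.tmul_mul_tmul, mul_one, one_mul,
    TensorProduct.add_tmul, TensorProduct.tmul_add]
  rw [← add_zero (_ + (1 ⊗ₜ[K] (a * b) + 1 ⊗ₜ[K] (b * a))), ← two (a ⊗ₜ[K] b + b ⊗ₜ[K] a)]
  abel

noncomputable def cm : A →ₐ[K] A ⊗[K] A :=
  lift (fun b => x b ⊗ₜ 1 + 1 ⊗ₜ x b) (by rw [sq, hh]) (by rw [sq, ee]; simp) (by rw [ac, he])

noncomputable def cu : A →ₐ[K] K := lift (fun _ => 0) (by simp) (by simp) (by simp)

noncomputable def an : A →ₐ[K] Aᵐᵒᵖ :=
  lift (fun b => MulOpposite.op (x b)) (by rw [← MulOpposite.op_mul, hh])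
    (by rw [← MulOpposite.op_mul, ee]; simp)
    (by rw [← MulOpposite.op_mul, ← MulOpposite.op_mul, ← MulOpposite.op_add, add_comm, he])

theorem cm_x (b : Bool) : cm (x b) = x b ⊗ₜ 1 + 1 ⊗ₜ x b := lift_x _ _ _ _ b
theorem cu_x (b : Bool) : cu (x b) = 0 := lift_x _ _ _ _ b
theorem an_x (b : Bool) : an (x b) = MulOpposite.op (x b) := lift_x _ _ _ _ b

noncomputable instance : Bialgebra K A :=
  Bialgebra.ofAlgHom cm cu
    (ext _ _ fun b => by
      simp [cm_x, Algebra.TensorProduct.one_def, TensorProduct.add_tmul, TensorProduct.tmul_add,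
        add_assoc])
    (ext _ _ fun b => by simp [cm_x, cu_x])
    (ext _ _ fun b => by simp [cm_x, cu_x])

theorem eh : x false * x true = x false + x true * x false := by
  have := he
  generalize x false * x true = u, x true * x false = v at this ⊢
  rw [← this, add_assoc, add_comm u, ← add_assoc, two, zero_add]

theorem span_top : Submodule.span K {1, x true, x false, x true * x false} = (⊤ : Submodule K A) := by
  set S := Submodule.span K ({1, x true, x false, x true * x false} : Set A)
  have m1 : (1 : A) ∈ S := Submodule.subset_span (by simp)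
  have m2 : x true ∈ S := Submodule.subset_span (by simp)
  have m3 : x false ∈ S := Submodule.subset_span (by simp)
  have m4 : x true * x false ∈ S := Submodule.subset_span (by simp)
  have key : ∀ f : F, ∀ s ∈ S, mk f * s ∈ S := by
    intro f
    induction f using FreeAlgebra.induction with
    | grade0 r => intro s hs; simpa [← Algebra.smul_def] using S.smul_mem r hs
    | grade1 b =>
      intro s hs
      change x b * s ∈ S
      induction hs using Submodule.span_induction with
      | mem s hs =>
        simp only [Set.mem_insert_iff, Set.mem_singleton_iff] at hs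
        rcases hs with rfl | rfl | rfl | rfl <;> cases b
        · rwa [mul_one]
        · rwa [mul_one]
        · exact eh ▸ S.add_mem m3 m4
        · rwa [hh]
        · exact ee ▸ S.zero_mem
        · exact m4
        · rw [← mul_assoc, eh, add_mul, mul_assoc, ee]
          simp
        · rwa [← mul_assoc, hh]
      | zero => simp
      | add a b _ _ ha hb => exact mul_add _ a b ▸ S.add_mem ha hb
      | smul r a _ ha => exact mul_smul_comm r _ a ▸ S.smul_mem r ha
    | mul a b ha hb => intro s hs; rw [map_mul, mul_assoc]; exact ha _ (hb _ hs)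
    | add a b ha hb => intro s hs; rw [map_add, add_mul]; exact S.add_mem (ha _ hs) (hb _ hs)
  refine eq_top_iff.2 fun a _ => ?_
  obtain ⟨f, rfl⟩ : ∃ f, mk f = a := RingQuot.mkAlgHom_surjective K rel a
  simpa using key f 1 m1

noncomputable def S : A →ₗ[K] A := (MulOpposite.opLinearEquiv K).symm.toLinearMap ∘ₗ an.toLinearMap

theorem S1 : S 1 = 1 := by simp [S]
theorem Sx (b : Bool) : S (x b) = x b := by simp [S, an_x]
theorem Sxx : S (x true * x false) = x false * x true := by simp [S, an_x]

theorem comul_eq (a : A) : Coalgebra.comul (R := K) a = cm a := rfl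
theorem counit_eq (a : A) : Coalgebra.counit (R := K) a = cu a := rfl

noncomputable instance : HopfAlgebra K A where
  antipode := S
  mul_antipode_rTensor_comul := LinearMap.ext_on span_top (by
    intro a ha
    simp only [Set.mem_insert_iff, Set.mem_singleton_iff] at ha
    rcases ha with rfl | rfl | rfl | rfl <;>
      simp [comul_eq, counit_eq, cm_x, cu_x, S1, Sx, Sxx, two, Algebra.TensorProduct.one_def,
        mul_add, add_mul])
  mul_antipode_lTensor_comul := LinearMap.ext_on span_top (by
    intro a ha
    simp only [Set.mem_insert_iff, Set.mem_singleton_iff] at ha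
    rcases ha with rfl | rfl | rfl | rfl <;>
      simp [comul_eq, counit_eq, cm_x, cu_x, S1, Sx, Sxx, two, Algebra.TensorProduct.one_def,
        mul_add, add_mul])

noncomputable def rep : A →ₐ[K] Matrix (Fin 2) (Fin 2) K :=
  lift (fun b => if b then !![1, 0; 0, 0] else !![0, 1; 0, 0])
    (by ext i j; fin_cases i <;> fin_cases j <;> simp)
    (by ext i j; fin_cases i <;> fin_cases j <;> simp)
    (by ext i j; fin_cases i <;> fin_cases j <;> simp)

theorem rep_P (t : K) : rep (1 + (x true + t • x false)) = !![0, t; 0, 1] := by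
  simp only [rep, map_add, map_smul, map_one, lift_x]
  ext i j
  fin_cases i <;> fin_cases j <;> simp [CharTwo.add_self_eq_zero]

theorem result : ∃ (k : Type) (_ : Field k) (H : Type) (_ : Ring H) (_ : HopfAlgebra k H),
    Module.Finite k H ∧ {P : H | IsGLP k P}.Infinite := by
  refine ⟨K, inferInstance, A, inferInstance, inferInstance,
    ⟨span_top ▸ Submodule.fg_span (Set.toFinite _)⟩, ?_⟩
  have : Infinite K := Infinite.of_injective _ (RatFunc.algebraMap_injective (ZMod 2))
  refine Set.infinite_of_injective_forall_mem (f := fun t : K => 1 + (x true + t • x false))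
    (fun s t h => ?_) fun t => ?_
  · have := congrArg rep h
    simp only [rep_P] at this
    simpa using congrFun (congrFun this 0) 1
  · set z := x true + t • x false with hz
    have zz : z * z = z := by
      have : z * z = x true * x true + t • (x true * x false + x false * x true) +
          (t * t) • (x false * x false) := by
        simp only [hz, mul_add, add_mul, smul_add, mul_smul_comm, smul_mul_assoc, smul_smul]
        abel
      rw [this, hh, he, ee, smul_zero, add_zero]
    have z1 : z * (1 + z) = 0 := by rw [mul_add, mul_one, zz, two]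
    have z2 : (1 + z) * z = 0 := by rw [add_mul, one_mul, zz, two]
    have dz : Coalgebra.comul (R := K) (1 + z) = 1 ⊗ₜ 1 + (z ⊗ₜ 1 + 1 ⊗ₜ z) := by
      simp only [comul_eq, hz, map_add, map_one, map_smul, cm_x, Algebra.TensorProduct.one_def,
        TensorProduct.add_tmul, TensorProduct.tmul_add, smul_add, TensorProduct.smul_tmul',
        TensorProduct.tmul_smul]
      abel
    refine ⟨fun h => ?_, by rw [mul_add, mul_one, z2, add_zero], ?_⟩
    · have := rep_P t
      rw [← hz, h, map_zero] at this
      simpa using congrFun (congrFun this 1) 1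
    · rw [dz]
      generalize hP : 1 + z = P at z1 z2 ⊢
      simp only [mul_add, add_mul, Algebra.TensorProduct.tmul_mul_tmul, mul_one, one_mul, z1, z2,
        TensorProduct.tmul_zero, TensorProduct.zero_tmul, add_zero, zero_add,
        ← TensorProduct.add_tmul, ← TensorProduct.tmul_add, hP, and_self]

end Pool.Agent.Results.MP_2a0e18_al.Infinite
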